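import Pool.Agent.H223Z.Tsi.Defs

set_option autoImplicit false

namespace Pool.Agent.H223Z.Tsi

open Finset

variable {X : Type*} [NormedAddCommGroup X] [NormedSpace ℝ X]
variable {e : ℕ+ → X} {e' : ℕ+ → X →L[ℝ] ℝ}

lemma coordNorm_nonneg (e : ℕ+ → X) (x : ℕ+ →₀ ℝ) : 0 ≤ coordNorm e x := norm_nonneg _

lemma coordNorm_zero (e : ℕ+ → X) : coordNorm e 0 = 0 := by simp [coordNorm]

lemma coordNorm_add_le (e : ℕ+ → X) (x y : ℕ+ →₀ ℝ) :
    coordNorm e (x + y) ≤ coordNorm e x + coordNorm e y := by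
  unfold coordNorm; rw [map_add]; exact norm_add_le _ _

lemma coordNorm_smul (e : ℕ+ → X) (c : ℝ) (x : ℕ+ →₀ ℝ) :
    coordNorm e (c • x) = |c| * coordNorm e x := by
  unfold coordNorm; rw [map_smul, norm_smul, Real.norm_eq_abs]

lemma coordNorm_le_sum (e : ℕ+ → X) (x : ℕ+ →₀ ℝ) (S : Finset ℕ+) (hS : x.support ⊆ S) :
    coordNorm e x ≤ ∑ k ∈ S, |x k| * ‖e k‖ := by
  unfold coordNorm
  rw [Finsupp.linearCombination_apply, Finsupp.sum_of_support_subset x hS _ (by simp)]
  refine (norm_sum_le _ _).trans (le_of_eq ?_)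
  refine sum_congr rfl fun k _ => ?_
  rw [norm_smul, Real.norm_eq_abs]

lemma bdd_abs (x : ℕ+ →₀ ℝ) : BddAbove (Set.range fun k => |x k|) := by
  refine ⟨∑ k ∈ x.support, |x k|, ?_⟩
  rintro _ ⟨k, rfl⟩
  show |x k| ≤ _
  by_cases hk : k ∈ x.support
  · exact single_le_sum (f := fun k => |x k|) (fun _ _ => abs_nonneg _) hk
  · rw [Finsupp.notMem_support_iff.1 hk, abs_zero]
    exact sum_nonneg fun _ _ => abs_nonneg _

lemma Admissible.unique {n : ℕ} {E : Fin n → Finset ℕ+} (h : Admissible n E) {i j : Fin n}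
    {k : ℕ+} (hi : k ∈ E i) (hj : k ∈ E j) : i = j := by
  rcases lt_trichotomy i j with hij | hij | hij
  · exact absurd (h.2.2 i j hij k hi k hj) (lt_irrefl _)
  · exact hij
  · exact absurd (h.2.2 j i hij k hj k hi) (lt_irrefl _)

lemma bdd_set (e : ℕ+ → X) (x : ℕ+ →₀ ℝ) :
    BddAbove {s : ℝ | ∃ (n : ℕ) (E : Fin n → Finset ℕ+), Admissible n E ∧
      s = ∑ i, coordNorm e (x.filter (· ∈ E i))} := by
  classical
  refine ⟨∑ k ∈ x.support, |x k| * ‖e k‖, ?_⟩
  rintro _ ⟨n, E, hE, rfl⟩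
  calc ∑ i, coordNorm e (x.filter (· ∈ E i))
      ≤ ∑ i, ∑ k ∈ x.support, |x.filter (· ∈ E i) k| * ‖e k‖ := by
        refine sum_le_sum fun i _ => coordNorm_le_sum e _ _ ?_
        rw [Finsupp.support_filter]; exact filter_subset _ _
    _ = ∑ k ∈ x.support, ∑ i, |x.filter (· ∈ E i) k| * ‖e k‖ := sum_comm
    _ ≤ _ := by
        refine sum_le_sum fun k _ => ?_
        by_cases h : ∃ i, k ∈ E i
        · obtain ⟨i, hi⟩ := h
          rw [sum_eq_single i]
          · rw [Finsupp.filter_apply_pos (p := (· ∈ E i)) _ hi]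
          · intro j _ hji
            rw [Finsupp.filter_apply_neg (p := (· ∈ E j)) _ (fun hj => hji (hE.unique hj hi))]
            simp
          · simp
        · push Not at h
          rw [sum_eq_zero]
          · positivity
          · intro i _
            rw [Finsupp.filter_apply_neg (p := (· ∈ E i)) _ (h i)]
            simp

namespace IsTsirelson

variable (h : IsTsirelson e e')
include h

lemma abs_le (x : ℕ+ →₀ ℝ) (k : ℕ+) : |x k| ≤ coordNorm e x := by
  rw [h.norm_eq x]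
  exact (le_ciSup (bdd_abs x) k).trans (le_max_left _ _)

lemma sum_le (x : ℕ+ →₀ ℝ) {n : ℕ} {E : Fin n → Finset ℕ+} (hE : Admissible n E) :
    ∑ i, coordNorm e (x.filter (· ∈ E i)) ≤ 2 * coordNorm e x := by
  have h1 := le_csSup (bdd_set e x) ⟨n, E, hE, rfl⟩
  have h2 := (le_max_right _ _).trans (h.norm_eq x).ge
  linarith

lemma le_of (x : ℕ+ →₀ ℝ) (r : ℝ) (h0 : ∀ k, |x k| ≤ r)
    (h1 : ∀ (n : ℕ) (E : Fin n → Finset ℕ+), Admissible n E →
      (∀ i, (x.filter (· ∈ E i)).support.card < x.support.card) →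
      ∑ i, coordNorm e (x.filter (· ∈ E i)) ≤ 2 * r) : coordNorm e x ≤ r := by
  classical
  have hr : 0 ≤ r := (abs_nonneg _).trans (h0 1)
  have hN := coordNorm_nonneg e x
  have h2 : sSup {s : ℝ | ∃ (n : ℕ) (E : Fin n → Finset ℕ+), Admissible n E ∧
      s = ∑ i, coordNorm e (x.filter (· ∈ E i))} ≤ max (2 * r) (coordNorm e x) := by
    refine Real.sSup_le ?_ (le_max_of_le_right hN)
    rintro _ ⟨n, E, hE, rfl⟩
    by_cases hc : ∀ i, (x.filter (· ∈ E i)).support.card < x.support.card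
    · exact le_max_of_le_left (h1 n E hE hc)
    · push Not at hc
      obtain ⟨i, hi⟩ := hc
      refine le_max_of_le_right (le_of_eq ?_)
      have hs : (x.filter (· ∈ E i)).support = x.support := by
        refine eq_of_subset_of_card_le ?_ hi
        rw [Finsupp.support_filter]; exact filter_subset _ _
      have hin : ∀ k ∈ x.support, k ∈ E i := by
        intro k hk
        rw [← hs, Finsupp.support_filter, mem_filter] at hk
        exact hk.2
      rw [sum_eq_single i]
      · congr 1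
        rw [Finsupp.filter_eq_self_iff]
        intro k hk
        exact hin k (Finsupp.mem_support_iff.2 hk)
      · intro j _ hji
        have : x.filter (· ∈ E j) = 0 := by
          rw [Finsupp.filter_eq_zero_iff]
          intro k hk
          by_contra hx
          exact hji (hE.unique hk (hin k (Finsupp.mem_support_iff.2 hx)))
        rw [this, coordNorm_zero]
      · simp
  have h3 : (⨆ k, |x k|) ≤ r := ciSup_le h0
  have h4 := h.norm_eq x
  rcases le_total (2 * r) (coordNorm e x) with h5 | h5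
  · rw [max_eq_right h5] at h2
    have : coordNorm e x ≤ max r (1 / 2 * coordNorm e x) := by
      rw [h4]; refine max_le_max h3 ?_; rw [← h4]; linarith
    rcases le_max_iff.1 this with h6 | h6 <;> linarith
  · rw [max_eq_left h5] at h2
    rw [h4]
    exact max_le h3 (by linarith)

lemma norm_e_le (k : ℕ+) : ‖e k‖ ≤ 1 := by
  classical
  have : coordNorm e (Finsupp.single k 1) ≤ 1 := by
    refine h.le_of _ _ (fun j => ?_) (fun n E _ hc => ?_)
    · rw [Finsupp.single_apply]; split_ifs <;> simp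
    · rw [sum_eq_zero]
      · norm_num
      · intro i _
        have h1 := hc i
        rw [Finsupp.support_single _ one_ne_zero, card_singleton, Nat.lt_one_iff,
          card_eq_zero, Finsupp.support_eq_empty] at h1
        rw [h1, coordNorm_zero]
  simpa [coordNorm] using this

/-- spreading and domination -/
lemma dom (σ : ℕ+ → ℕ+) (hσ : StrictMono σ) (a x : ℕ+ →₀ ℝ) (hax : ∀ k, |a k| ≤ |x (σ k)|) :
    coordNorm e a ≤ coordNorm e x := by
  classical
  induction hc : a.support.card using Nat.strong_induction_on generalizing a x with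
  | _ m ih =>
  refine h.le_of _ _ (fun k => (hax k).trans (h.abs_le x _)) (fun n E hE hlt => ?_)
  have hE' : Admissible n (fun i => (E i).image σ) := by
    refine ⟨fun i => (hE.1 i).image σ, fun i k hk => ?_, fun i j hij k hk l hl => ?_⟩
    · obtain ⟨k', hk', rfl⟩ := mem_image.1 hk
      exact (hE.2.1 i k' hk').trans (hσ.id_le k')
    · obtain ⟨k', hk', rfl⟩ := mem_image.1 hk
      obtain ⟨l', hl', rfl⟩ := mem_image.1 hl
      exact hσ (hE.2.2 i j hij k' hk' l' hl')
  refine le_trans (sum_le_sum fun i _ => ?_) (h.sum_le x hE')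
  refine ih _ (hc ▸ hlt i) _ _ (fun k => ?_) rfl
  by_cases hk : k ∈ E i
  · rw [Finsupp.filter_apply_pos (p := (· ∈ E i)) _ hk,
      Finsupp.filter_apply_pos (p := (· ∈ (E i).image σ)) _ (mem_image_of_mem σ hk)]
    exact hax k
  · rw [Finsupp.filter_apply_neg (p := (· ∈ E i)) _ hk, abs_zero]
    exact abs_nonneg _

lemma lat (a x : ℕ+ →₀ ℝ) (hax : ∀ k, |a k| ≤ |x k|) : coordNorm e a ≤ coordNorm e x :=
  h.dom id strictMono_id a x hax

lemma filter_le (x : ℕ+ →₀ ℝ) (p : ℕ+ → Prop) [DecidablePred p] :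
    coordNorm e (x.filter p) ≤ coordNorm e x := by
  refine h.lat _ _ fun k => ?_
  rw [Finsupp.filter_apply]
  split_ifs <;> simp

/-- successive blocks, general index set -/
lemma blocks {ι : Type*} [LinearOrder ι] (s : Finset ι) (y : ι → (ℕ+ →₀ ℝ)) (x : ℕ+ →₀ ℝ)
    (hle : ∀ i ∈ s, ∀ k, |y i k| ≤ |x k|)
    (hc : ∀ i ∈ s, ∀ k ∈ (y i).support, s.card ≤ (k : ℕ))
    (ho : ∀ i ∈ s, ∀ j ∈ s, i < j → ∀ k ∈ (y i).support, ∀ l ∈ (y j).support, k < l) :
    ∑ i ∈ s, coordNorm e (y i) ≤ 2 * coordNorm e x := by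
  classical
  set t := s.filter (fun i => y i ≠ 0) with ht
  have h1 : ∑ i ∈ s, coordNorm e (y i) = ∑ i ∈ t, coordNorm e (y i) := by
    rw [ht, sum_filter_of_ne]
    intro i _ hi hy
    rw [hy, coordNorm_zero] at hi
    exact hi rfl
  let φ := t.orderEmbOfFin rfl
  have hφ : ∀ i, φ i ∈ t := fun i => orderEmbOfFin_mem t rfl i
  have hφs : ∀ i, φ i ∈ s := fun i => (mem_filter.1 (hφ i)).1
  have hE : Admissible t.card (fun i => (y (φ i)).support) := by
    refine ⟨fun i => ?_, fun i k hk => ?_, fun i j hij k hk l hl => ?_⟩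
    · exact Finsupp.support_nonempty_iff.2 (mem_filter.1 (hφ i)).2
    · exact (card_filter_le _ _).trans (hc _ (hφs i) k hk)
    · exact ho _ (hφs i) _ (hφs j) (φ.strictMono hij) k hk l hl
  have h2 : ∑ i ∈ t, coordNorm e (y i) = ∑ i : Fin t.card, coordNorm e (y (φ i)) := by
    symm
    refine sum_bij (fun i _ => φ i) (fun i _ => hφ i) (fun i _ j _ hij => φ.injective hij) ?_
      (fun _ _ => rfl)
    intro b hb
    have : b ∈ Set.range φ := by rw [range_orderEmbOfFin]; exact hb
    obtain ⟨i, hi⟩ := this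
    exact ⟨i, mem_univ _, hi⟩
  rw [h1, h2]
  refine le_trans (sum_le_sum fun i _ => ?_) (h.sum_le x hE)
  refine h.lat _ _ fun k => ?_
  by_cases hk : k ∈ (y (φ i)).support
  · rw [Finsupp.filter_apply_pos (p := (· ∈ (y (φ i)).support)) _ hk]
    exact hle _ (hφs i) k
  · rw [Finsupp.notMem_support_iff.1 hk, abs_zero]
    exact abs_nonneg _

lemma le_l1 (v : ℕ+ → ℕ+) (a : ℕ+ →₀ ℝ) (S : Finset ℕ+) (hS : a.support ⊆ S) :
    coordNorm (e ∘ v) a ≤ ∑ k ∈ S, |a k| := by
  refine (coordNorm_le_sum _ a S hS).trans (sum_le_sum fun k _ => ?_)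
  have := h.norm_e_le (v k)
  have h2 := abs_nonneg (a k)
  simp only [Function.comp]
  nlinarith

end IsTsirelson

end Pool.Agent.H223Z.Tsi
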