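import Mathlib

/-!
Tsirelson space (Figiel-Johnson space) and the factorization property: definitions.
-/

set_option autoImplicit false

namespace Pool.Agent.H223Z.Tsi

/-- `n ≤ E 0 < E 1 < ⋯ < E (n-1)`: nonempty finite sets of positive integers, successive, all of
whose elements are at least `n`. -/
def Admissible (n : ℕ) (E : Fin n → Finset ℕ+) : Prop :=
  (∀ i, (E i).Nonempty) ∧ (∀ i, ∀ k ∈ E i, n ≤ (k : ℕ)) ∧
    ∀ i j, i < j → ∀ k ∈ E i, ∀ l ∈ E j, k < l

variable {X : Type*} [NormedAddCommGroup X] [NormedSpace ℝ X]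

/-- The norm in `X` of the vector `∑ k, x k • e k`, for a finitely supported sequence `x`. -/
noncomputable def coordNorm (e : ℕ+ → X) (x : ℕ+ →₀ ℝ) : ℝ :=
  ‖Finsupp.linearCombination ℝ e x‖

/-- `X` with the vectors `e k` and the functionals `e' k` is (when `X` is complete) Tsirelson's
space `T` with its unit vector basis and the biorthogonal functionals: the span of the `e k` is
dense, and on finitely supported sequences the norm satisfies the implicit equation
`‖x‖ = max (‖x‖_∞, (1/2) sup ∑ i, ‖E i x‖)`, the supremum over all admissible families. -/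
structure IsTsirelson (e : ℕ+ → X) (e' : ℕ+ → X →L[ℝ] ℝ) : Prop where
  biorth : ∀ j k, e' j (e k) = if j = k then 1 else 0
  dense : Dense (Submodule.span ℝ (Set.range e) : Set X)
  norm_eq : ∀ x : ℕ+ →₀ ℝ, coordNorm e x = max (⨆ k, |x k|)
    (1 / 2 * sSup {s : ℝ | ∃ (n : ℕ) (E : Fin n → Finset ℕ+), Admissible n E ∧
      s = ∑ i, coordNorm e (x.filter (· ∈ E i))})

/-- The operator `A` has large diagonal: `inf_k |e'_k (A e_k)| > 0`. -/
def LargeDiagonal (e : ℕ+ → X) (e' : ℕ+ → X →L[ℝ] ℝ) (A : X →L[ℝ] X) : Prop :=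
  0 < ⨅ k, |e' k (A (e k))|

/-- The factorization property: the identity factors through every bounded operator with large
diagonal. -/
def FactorizationProperty (e : ℕ+ → X) (e' : ℕ+ → X →L[ℝ] ℝ) : Prop :=
  ∀ A : X →L[ℝ] X, LargeDiagonal e e' A →
    ∃ R S : X →L[ℝ] X, S.comp (A.comp R) = ContinuousLinearMap.id ℝ X

end Pool.Agent.H223Z.Tsi
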