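import Pool.Agent.H223Z.Tsi.Basic

set_option autoImplicit false

namespace Pool.Agent.H223Z.Tsi

open Finset BoundedContinuousFunction

/-- the norming set -/
inductive IsK : (ℕ+ →₀ ℝ) → Prop
  | single (k : ℕ+) : IsK (Finsupp.single k 1)
  | node (n : ℕ) (E : Fin n → Finset ℕ+) (hE : Admissible n E) (s : Fin n → ℝ)
      (hs : ∀ i, |s i| ≤ 1) (g : Fin n → (ℕ+ →₀ ℝ)) (hg : ∀ i, IsK (g i)) :
      IsK ((1 / 2 : ℝ) • ∑ i, s i • (g i).filter (· ∈ E i))

lemma IsK.abs_le {f : ℕ+ →₀ ℝ} (hf : IsK f) (k : ℕ+) : |f k| ≤ 1 := by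
  classical
  induction hf with
  | single j => rw [Finsupp.single_apply]; split_ifs <;> simp
  | node n E hE s hs g hg ih =>
    rw [Finsupp.smul_apply, Finsupp.finsetSum_apply, smul_eq_mul, abs_mul]
    have h2 : |(1 / 2 : ℝ)| = 1 / 2 := by norm_num
    rw [h2]
    by_cases hk : ∃ i, k ∈ E i
    · obtain ⟨i, hi⟩ := hk
      rw [sum_eq_single i]
      · rw [Finsupp.smul_apply, Finsupp.filter_apply_pos (p := (· ∈ E i)) _ hi, smul_eq_mul, abs_mul]
        have := hs i
        have := ih i
        have := abs_nonneg (s i)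
        have := abs_nonneg (g i k)
        nlinarith
      · intro j _ hji
        rw [Finsupp.smul_apply,
          Finsupp.filter_apply_neg (p := (· ∈ E j)) _ (fun hj => hji (hE.unique hj hi)), smul_zero]
      · simp
    · push Not at hk
      rw [sum_eq_zero]
      · norm_num
      · intro i _
        rw [Finsupp.smul_apply, Finsupp.filter_apply_neg (p := (· ∈ E i)) _ (hk i), smul_zero]

/-- the norming set as a discrete space -/
def K : Type := {f : ℕ+ →₀ ℝ // IsK f}

instance : TopologicalSpace K := ⊥
instance : DiscreteTopology K := ⟨rfl⟩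
instance : Nonempty K := ⟨⟨_, IsK.single 1⟩⟩

/-- unit vectors as bounded functions on the norming set -/
noncomputable def e0 (k : ℕ+) : K →ᵇ ℝ :=
  ofNormedAddCommGroupDiscrete (fun f : K => f.1 k) 1 (fun f => f.2.abs_le k)

/-- pairing -/
noncomputable def pair (x f : ℕ+ →₀ ℝ) : ℝ := Finsupp.linearCombination ℝ (x : ℕ+ → ℝ) f

lemma pair_eq (x f : ℕ+ →₀ ℝ) (S : Finset ℕ+) (hS : x.support ⊆ S) :
    pair x f = ∑ k ∈ S, x k * f k := by
  classical
  unfold pair
  rw [Finsupp.linearCombination_apply,
    Finsupp.sum_of_support_subset f (s := f.support ∪ S) subset_union_left _ (by simp)]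
  symm
  simp only [smul_eq_mul]
  rw [sum_subset (subset_union_right (s₁ := f.support))]
  · exact sum_congr rfl fun k _ => mul_comm _ _
  · intro k _ hk
    have : x k = 0 := Finsupp.notMem_support_iff.1 fun h => hk (hS h)
    simp [this]

lemma lc_e0 (x : ℕ+ →₀ ℝ) (f : K) : Finsupp.linearCombination ℝ e0 x f = pair x f.1 := by
  rw [pair_eq x _ _ subset_rfl, Finsupp.linearCombination_apply, Finsupp.sum,
    BoundedContinuousFunction.coe_sum,
    Finset.sum_apply]
  rfl

lemma pair_filter (x f : ℕ+ →₀ ℝ) (E : Finset ℕ+) :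
    pair x (f.filter (· ∈ E)) = pair (x.filter (· ∈ E)) f := by
  classical
  rw [pair_eq x _ _ subset_rfl, pair_eq _ f x.support]
  · refine sum_congr rfl fun k _ => ?_
    simp only [Finsupp.filter_apply]
    split_ifs <;> simp
  · rw [Finsupp.support_filter]; exact filter_subset _ _

lemma pair_le (x : ℕ+ →₀ ℝ) {f : ℕ+ →₀ ℝ} (hf : IsK f) : |pair x f| ≤ coordNorm e0 x := by
  have := norm_coe_le_norm (Finsupp.linearCombination ℝ e0 x) ⟨f, hf⟩
  rwa [lc_e0, Real.norm_eq_abs] at this

lemma pair_node (x : ℕ+ →₀ ℝ) (n : ℕ) (E : Fin n → Finset ℕ+) (s : Fin n → ℝ)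
    (g : Fin n → (ℕ+ →₀ ℝ)) :
    pair x ((1 / 2 : ℝ) • ∑ i, s i • (g i).filter (· ∈ E i)) =
      1 / 2 * ∑ i, s i * pair (x.filter (· ∈ E i)) (g i) := by
  simp only [← pair_filter]
  unfold pair
  simp only [map_smul, map_sum, smul_eq_mul]

lemma norm_eq0 (x : ℕ+ →₀ ℝ) : coordNorm e0 x = max (⨆ k, |x k|)
    (1 / 2 * sSup {s : ℝ | ∃ (n : ℕ) (E : Fin n → Finset ℕ+), Admissible n E ∧
      s = ∑ i, coordNorm e0 (x.filter (· ∈ E i))}) := by
  apply le_antisymm
  · unfold coordNorm
    rw [norm_le_of_nonempty]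
    rintro ⟨f, hf⟩
    rw [lc_e0, Real.norm_eq_abs]
    cases hf with
    | single k =>
      refine le_max_of_le_left ?_
      have : pair x (Finsupp.single k 1) = x k := by simp [pair]
      rw [this]
      exact le_ciSup (bdd_abs x) k
    | node n E hE s hs g hg =>
      refine le_max_of_le_right ?_
      rw [pair_node, abs_mul]
      have h2 : |(1 / 2 : ℝ)| = 1 / 2 := by norm_num
      rw [h2]
      refine mul_le_mul_of_nonneg_left ?_ (by norm_num)
      refine le_trans ?_ (le_csSup (bdd_set e0 x) ⟨n, E, hE, rfl⟩)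
      refine (abs_sum_le_sum_abs _ _).trans (sum_le_sum fun i _ => ?_)
      rw [abs_mul]
      have h1 := pair_le (x.filter (· ∈ E i)) (hg i)
      have := hs i
      have := abs_nonneg (s i)
      have := abs_nonneg (pair (x.filter (· ∈ E i)) (g i))
      show _ ≤ coordNorm e0 _
      nlinarith
  · refine max_le (ciSup_le fun k => ?_) ?_
    · have := pair_le x (IsK.single k)
      have h2 : pair x (Finsupp.single k 1) = x k := by simp [pair]
      rwa [h2] at this
    · have : sSup {s : ℝ | ∃ (n : ℕ) (E : Fin n → Finset ℕ+), Admissible n E ∧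
          s = ∑ i, coordNorm e0 (x.filter (· ∈ E i))} ≤ 2 * coordNorm e0 x := by
        refine Real.sSup_le ?_ (by linarith [coordNorm_nonneg e0 x])
        rintro _ ⟨n, E, hE, rfl⟩
        refine le_of_forall_pos_le_add fun ε hε => ?_
        have hex : ∀ i, ∃ g : K, coordNorm e0 (x.filter (· ∈ E i)) - ε / (n + 1) <
            |pair (x.filter (· ∈ E i)) g.1| := by
          intro i
          by_contra hc
          push Not at hc
          have h1 : coordNorm e0 (x.filter (· ∈ E i)) ≤
              coordNorm e0 (x.filter (· ∈ E i)) - ε / (n + 1) := by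
            conv_lhs => unfold coordNorm
            rw [norm_le_of_nonempty]
            intro g
            rw [lc_e0, Real.norm_eq_abs]
            exact hc g
          have : 0 < ε / (n + 1) := by positivity
          linarith
        choose g hg using hex
        let s : Fin n → ℝ := fun i => if 0 ≤ pair (x.filter (· ∈ E i)) (g i).1 then 1 else -1
        have hs : ∀ i, |s i| ≤ 1 := fun i => by simp only [s]; split_ifs <;> simp
        have hs2 : ∀ i, s i * pair (x.filter (· ∈ E i)) (g i).1 =
            |pair (x.filter (· ∈ E i)) (g i).1| := fun i => by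
          simp only [s]
          split_ifs with h0
          · rw [one_mul, abs_of_nonneg h0]
          · rw [neg_one_mul, abs_of_neg (not_le.1 h0)]
        have h1 := (le_abs_self _).trans
          (pair_le x (IsK.node n E hE s hs (fun i => (g i).1) (fun i => (g i).2)))
        rw [pair_node] at h1
        simp only [hs2] at h1
        have h2 : ∑ i, (coordNorm e0 (x.filter (· ∈ E i)) - ε / (n + 1)) ≤
            ∑ i, |pair (x.filter (· ∈ E i)) (g i).1| := sum_le_sum fun i _ => (hg i).le
        rw [sum_sub_distrib, sum_const, card_univ, Fintype.card_fin, nsmul_eq_mul] at h2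
        have h3 : (n : ℝ) * (ε / (n + 1)) ≤ ε := by
          rw [← mul_div_assoc, div_le_iff₀ (by positivity)]
          nlinarith
        linarith
      linarith

/-- the coordinate functional as a point of the norming set -/
noncomputable def kpt (k : ℕ+) : K := ⟨_, IsK.single k⟩

/-- Tsirelson's space -/
noncomputable def TS : Submodule ℝ (K →ᵇ ℝ) := (Submodule.span ℝ (Set.range e0)).topologicalClosure

theorem exists_isTsirelson : ∃ (X : Type) (_ : NormedAddCommGroup X) (_ : NormedSpace ℝ X)
    (_ : CompleteSpace X) (e : ℕ+ → X) (e' : ℕ+ → X →L[ℝ] ℝ), IsTsirelson e e' := by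
  let e : ℕ+ → TS := fun k => ⟨e0 k, Submodule.le_topologicalClosure _
    (Submodule.subset_span ⟨k, rfl⟩)⟩
  have hc : CompleteSpace TS := (Submodule.isClosed_topologicalClosure _).completeSpace_coe
  have hlc : ∀ x, coordNorm e x = coordNorm e0 x := by
    intro x
    unfold coordNorm
    rw [← Submodule.norm_coe]
    congr 1
    exact (Finsupp.apply_linearCombination ℝ TS.subtype e x)
  refine ⟨TS, inferInstance, inferInstance, hc, e,
    fun k => (evalCLM ℝ (kpt k)).comp TS.subtypeL, ?_, ?_, ?_⟩
  · intro j k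
    show (Finsupp.single j (1 : ℝ)) k = _
    rw [Finsupp.single_apply]
  · rw [Subtype.dense_iff]
    have : ((↑) : TS → (K →ᵇ ℝ)) '' (Submodule.span ℝ (Set.range e) : Set TS) =
        (Submodule.span ℝ (Set.range e0) : Set (K →ᵇ ℝ)) := by
      have h1 := Submodule.map_span TS.subtype (Set.range e)
      rw [← Set.range_comp] at h1
      exact congrArg SetLike.coe h1
    intro y hy
    have h2 : y ∈ closure (Submodule.span ℝ (Set.range e0) : Set (K →ᵇ ℝ)) := hy
    rw [← this] at h2
    exact h2
  · intro x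
    simp only [hlc]
    exact norm_eq0 x

end Pool.Agent.H223Z.Tsi
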