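import Pool.Agent.H223Z.Tsi.Basic

set_option autoImplicit false

namespace Pool.Agent.H223Z.Tsi

open Finset

variable {X : Type*} [NormedAddCommGroup X] [NormedSpace ℝ X]
variable {e : ℕ+ → X} {e' : ℕ+ → X →L[ℝ] ℝ}

/-- on the intervals `[m, f m)` the norm is uniformly equivalent to the `ℓ¹` norm -/
def Good (e : ℕ+ → X) (f : ℕ → ℕ) : Prop :=
  ∃ C : ℝ, 0 ≤ C ∧ ∀ (m : ℕ) (x : ℕ+ →₀ ℝ) (S : Finset ℕ+),
    (∀ k ∈ S, m ≤ (k : ℕ) ∧ (k : ℕ) < f m) → ∑ k ∈ S, |x k| ≤ C * coordNorm e x

lemma Good.mono {f g : ℕ → ℕ} (hg : Good e g) (hfg : ∀ m, f m ≤ g m) : Good e f := by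
  obtain ⟨C, hC, h⟩ := hg
  exact ⟨C, hC, fun m x S hS => h m x S fun k hk => ⟨(hS k hk).1, (hS k hk).2.trans_le (hfg m)⟩⟩

lemma Good.comp {f g : ℕ → ℕ} (hf : Good e f) (hg : Good e g) : Good e (fun m => g (f m)) := by
  classical
  obtain ⟨C, hC, h⟩ := hf
  obtain ⟨D, hD, h'⟩ := hg
  refine ⟨C + D, add_nonneg hC hD, fun m x S hS => ?_⟩
  rw [← sum_filter_add_sum_filter_not S (fun k : ℕ+ => (k : ℕ) < f m), add_mul]
  refine add_le_add (h m x _ fun k hk => ?_) (h' (f m) x _ fun k hk => ?_)
  · rw [mem_filter] at hk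
    exact ⟨(hS k hk.1).1, hk.2⟩
  · rw [mem_filter] at hk
    exact ⟨not_lt.1 hk.2, (hS k hk.1).2⟩

lemma Good.max {f g : ℕ → ℕ} (hf : Good e f) (hg : Good e g) :
    Good e (fun m => max (f m) (g m)) := by
  obtain ⟨C, hC, h⟩ := hf
  obtain ⟨D, hD, h'⟩ := hg
  refine ⟨C + D, add_nonneg hC hD, fun m x S hS => ?_⟩
  have hN := coordNorm_nonneg e x
  rcases le_total (f m) (g m) with hle | hle
  · have := h' m x S fun k hk => ⟨(hS k hk).1, by simpa [max_eq_right hle] using (hS k hk).2⟩
    nlinarith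
  · have := h m x S fun k hk => ⟨(hS k hk).1, by simpa [max_eq_left hle] using (hS k hk).2⟩
    nlinarith

lemma good_id : Good e (fun m => m) := by
  refine ⟨0, le_rfl, fun m x S hS => ?_⟩
  rw [sum_eq_zero]
  · simp
  · intro k hk
    have := hS k hk
    simp only at this
    omega

lemma card_le_of_Ico (S : Finset ℕ+) (a b : ℕ) (hS : ∀ k ∈ S, a ≤ (k : ℕ) ∧ (k : ℕ) < b) :
    S.card ≤ b - a := by
  rw [← Nat.card_Ico a b]
  refine card_le_card_of_injOn (fun k : ℕ+ => (k : ℕ)) (fun k hk => ?_) (fun k _ l _ hkl => PNat.eq hkl)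
  simpa using hS k hk

namespace IsTsirelson

variable (h : IsTsirelson e e')
include h

lemma good_const (c : ℕ) : Good e (fun _ => c) := by
  refine ⟨c, Nat.cast_nonneg _, fun m x S hS => ?_⟩
  have h1 : S.card ≤ c := by
    have := card_le_of_Ico S 0 c fun k hk => ⟨Nat.zero_le _, (hS k hk).2⟩
    omega
  calc ∑ k ∈ S, |x k| ≤ ∑ _k ∈ S, coordNorm e x := sum_le_sum fun k _ => h.abs_le x k
    _ = S.card * coordNorm e x := by rw [sum_const, nsmul_eq_mul]
    _ ≤ _ := mul_le_mul_of_nonneg_right (by exact_mod_cast h1) (coordNorm_nonneg e x)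

lemma l1_adm (x : ℕ+ →₀ ℝ) (S : Finset ℕ+) (hS : ∀ k ∈ S, S.card ≤ (k : ℕ)) :
    ∑ k ∈ S, |x k| ≤ 2 * coordNorm e x := by
  classical
  have hsupp : ∀ i k, k ∈ (Finsupp.single i (x i)).support → k = i := fun i k hk =>
    mem_singleton.1 (Finsupp.support_single_subset hk)
  refine le_trans (sum_le_sum fun i _ => ?_)
    (h.blocks S (fun i => Finsupp.single i (x i)) x (fun i _ k => ?_) (fun i hi k hk => ?_)
      (fun i _ j _ hij k hk l hl => ?_))
  · have := h.abs_le (Finsupp.single i (x i)) i
    rwa [Finsupp.single_eq_same] at this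
  · rw [Finsupp.single_apply]
    split_ifs with hik
    · rw [hik]
    · simp
  · rw [hsupp i k hk]; exact hS i hi
  · rw [hsupp i k hk, hsupp j l hl]; exact hij

lemma l1_dyadic (m : ℕ) (x : ℕ+ →₀ ℝ) (S : Finset ℕ+)
    (hS : ∀ k ∈ S, m ≤ (k : ℕ) ∧ (k : ℕ) < 2 * m) : ∑ k ∈ S, |x k| ≤ 2 * coordNorm e x := by
  refine h.l1_adm x S fun k hk => ?_
  have := card_le_of_Ico S m (2 * m) hS
  have := (hS k hk).1
  omega

lemma good_exp : Good e (fun m => m * 2 ^ m) := by
  classical
  refine ⟨4, by norm_num, fun m x S hS => ?_⟩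
  let y : ℕ → (ℕ+ →₀ ℝ) := fun l => x.filter (fun k : ℕ+ => m * 2 ^ l ≤ (k : ℕ) ∧ (k : ℕ) < m * 2 ^ (l + 1))
  have h1 : ∀ t, ∀ S : Finset ℕ+, (∀ k ∈ S, m ≤ (k : ℕ) ∧ (k : ℕ) < m * 2 ^ t) →
      ∑ k ∈ S, |x k| ≤ ∑ l ∈ range t, 2 * coordNorm e (y l) := by
    intro t
    induction t with
    | zero =>
      intro S hS
      rw [sum_eq_zero]
      · simp
      · intro k hk
        have := hS k hk
        omega
    | succ t ih =>
      intro S hS
      rw [← sum_filter_add_sum_filter_not S (fun k : ℕ+ => (k : ℕ) < m * 2 ^ t), sum_range_succ]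
      refine add_le_add (ih _ fun k hk => ?_) ?_
      · rw [mem_filter] at hk
        exact ⟨(hS k hk.1).1, hk.2⟩
      · refine le_trans (le_of_eq ?_) (h.l1_dyadic (m * 2 ^ t) (y t)
          (S.filter (fun k : ℕ+ => ¬ (k : ℕ) < m * 2 ^ t)) fun k hk => ?_)
        · refine sum_congr rfl fun k hk => ?_
          rw [mem_filter] at hk
          simp only [y]
          rw [Finsupp.filter_apply_pos]
          exact ⟨not_lt.1 hk.2, (hS k hk.1).2⟩
        · rw [mem_filter] at hk
          refine ⟨not_lt.1 hk.2, ?_⟩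
          have := (hS k hk.1).2
          rw [pow_succ] at this
          linarith
  refine (h1 m S hS).trans ?_
  rw [← mul_sum]
  have h2 := h.blocks (range m) y x (fun i _ k => ?_) (fun i _ k hk => ?_)
    (fun i _ j _ hij k hk l hl => ?_)
  · linarith
  · simp only [y]
    rw [Finsupp.filter_apply]
    split_ifs <;> simp
  · simp only [y, Finsupp.support_filter, mem_filter] at hk
    rw [card_range]
    have : 1 ≤ 2 ^ i := Nat.one_le_two_pow
    nlinarith [hk.2.1]
  · simp only [y, Finsupp.support_filter, mem_filter] at hk hl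
    have h3 : 2 ^ (i + 1) ≤ 2 ^ j := Nat.pow_le_pow_right (by norm_num) hij
    have h4 : m * 2 ^ (i + 1) ≤ m * 2 ^ j := Nat.mul_le_mul_left _ h3
    have : (k : ℕ) < l := by omega
    exact_mod_cast this

lemma good_add {f g : ℕ → ℕ} (hf : Good e f) (hg : Good e g) : Good e (fun m => f m + g m) := by
  refine ((hf.max hg).comp h.good_exp).mono fun m => ?_
  set y := max (f m) (g m)
  have h1 : f m ≤ y := le_max_left _ _
  have h2 : g m ≤ y := le_max_right _ _
  rcases Nat.eq_zero_or_pos y with h0 | h0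
  · omega
  · have : 2 ^ 1 ≤ 2 ^ y := Nat.pow_le_pow_right (by norm_num) h0
    nlinarith

lemma good_mul {f g : ℕ → ℕ} (hf : Good e f) (hg : Good e g) : Good e (fun m => f m * g m) := by
  refine ((hf.max hg).comp h.good_exp).mono fun m => ?_
  set y := max (f m) (g m)
  have h1 : f m ≤ y := le_max_left _ _
  have h2 : g m ≤ y := le_max_right _ _
  exact Nat.mul_le_mul h1 (h2.trans (Nat.lt_two_pow_self).le)

lemma good_pow {f g : ℕ → ℕ} (hf : Good e f) (hg : Good e g) : Good e (fun m => f m ^ g m) := by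
  have h2 : Good e (fun m => 2 ^ m) := by
    refine ((good_id.max (h.good_const 1)).comp h.good_exp).mono fun m => ?_
    have h1 : 2 ^ m ≤ 2 ^ (max m 1) := Nat.pow_le_pow_right (by norm_num) (le_max_left _ _)
    have h2 : 1 ≤ max m 1 := le_max_right _ _
    exact h1.trans (Nat.le_mul_of_pos_left _ h2)
  refine ((h.good_mul hf hg).comp h2).mono fun m => ?_
  rw [pow_mul]
  exact Nat.pow_le_pow_left (Nat.lt_two_pow_self).le _

end IsTsirelson

/-- the two-piece functional -/
noncomputable def phi (e : ℕ+ → X) (a : ℕ+ →₀ ℝ) (m : ℕ) : ℝ :=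
  coordNorm e (a.filter (fun k : ℕ+ => (k : ℕ) < m)) + coordNorm e (a.filter (fun k : ℕ+ => m ≤ (k : ℕ)))

lemma exists_max_phi (e : ℕ+ → X) (a : ℕ+ →₀ ℝ) : ∃ m0, ∀ m, phi e a m ≤ phi e a m0 := by
  classical
  set B := a.support.sup (fun k : ℕ+ => (k : ℕ)) + 1 with hB
  have hBk : ∀ k ∈ a.support, (k : ℕ) < B := fun k hk =>
    Nat.lt_succ_of_le (le_sup (f := fun k : ℕ+ => (k : ℕ)) hk)
  have hconst : ∀ m, B ≤ m → phi e a m = coordNorm e a := by
    intro m hm
    unfold phi
    have h1 : a.filter (fun k : ℕ+ => (k : ℕ) < m) = a := by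
      rw [Finsupp.filter_eq_self_iff]
      intro k hk
      exact (hBk k (Finsupp.mem_support_iff.2 hk)).trans_le hm
    have h2 : a.filter (fun k : ℕ+ => m ≤ (k : ℕ)) = 0 := by
      rw [Finsupp.filter_eq_zero_iff]
      intro k hk
      by_contra hx
      have := hBk k (Finsupp.mem_support_iff.2 hx)
      omega
    rw [h1, h2, coordNorm_zero, add_zero]
  obtain ⟨m0, -, hm0⟩ := exists_max_image (range (B + 1)) (phi e a) ⟨0, by simp⟩
  refine ⟨m0, fun m => ?_⟩
  rcases le_total m B with hm | hm
  · exact hm0 m (mem_range.2 (by omega))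
  · rw [hconst m hm, ← hconst B le_rfl]
    exact hm0 B (mem_range.2 (by omega))

lemma coordNorm_comp (e : ℕ+ → X) (ι : ℕ+ → ℕ+) (a : ℕ+ →₀ ℝ) :
    coordNorm (e ∘ ι) a = coordNorm e (a.mapDomain ι) := by
  unfold coordNorm
  rw [Finsupp.linearCombination_mapDomain]

lemma filter_mapDomain (ι : ℕ+ → ℕ+) (hι : Function.Injective ι) (a : ℕ+ →₀ ℝ) (p : ℕ+ → Prop)
    [DecidablePred p] : (a.mapDomain ι).filter p = (a.filter (fun k : ℕ+ => p (ι k))).mapDomain ι := by
  ext k
  by_cases hk : k ∈ Set.range ι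
  · obtain ⟨j, rfl⟩ := hk
    rw [Finsupp.filter_apply, Finsupp.mapDomain_apply hι, Finsupp.mapDomain_apply hι,
      Finsupp.filter_apply]
  · rw [Finsupp.filter_apply, Finsupp.mapDomain_of_notMem_range _ _ hk,
      Finsupp.mapDomain_of_notMem_range _ _ hk]
    simp

namespace IsTsirelson

variable (h : IsTsirelson e e')
include h

/-- a subsequence of elementary growth is dominated by the basis -/
lemma subseq_le (ι : ℕ+ → ℕ+) (hι : StrictMono ι) (F : ℕ → ℕ) (hF : Good e F)
    (hιF : ∀ k : ℕ+, 2 * (ι k : ℕ) ≤ F k) :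
    ∃ C : ℝ, ∀ a : ℕ+ →₀ ℝ, coordNorm (e ∘ ι) a ≤ C * coordNorm e a := by
  classical
  obtain ⟨C, hC, hF⟩ := hF
  choose mm hmm using exists_max_phi e
  have key : ∀ a : ℕ+ →₀ ℝ, coordNorm (e ∘ ι) a ≤ (C + 1) * phi e a (mm a) := by
    intro a
    induction hc : a.support.card using Nat.strong_induction_on generalizing a with
    | _ N ih =>
    have hphi0 : coordNorm e a ≤ phi e a (mm a) := by
      refine le_trans ?_ (hmm a 0)
      unfold phi
      have h2 : a.filter (fun k : ℕ+ => 0 ≤ (k : ℕ)) = a := by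
        rw [Finsupp.filter_eq_self_iff]
        intro k _
        exact Nat.zero_le _
      rw [h2]
      linarith [coordNorm_nonneg e (a.filter (fun k : ℕ+ => (k : ℕ) < 0))]
    have hN := coordNorm_nonneg e a
    rw [coordNorm_comp]
    refine h.le_of _ _ (fun k => ?_) (fun n E hE hlt => ?_)
    · by_cases hk : k ∈ Set.range ι
      · obtain ⟨j, rfl⟩ := hk
        rw [Finsupp.mapDomain_apply hι.injective]
        have := h.abs_le a j
        nlinarith
      · rw [Finsupp.mapDomain_of_notMem_range _ _ hk, abs_zero]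
        nlinarith
    · simp only [filter_mapDomain ι hι.injective, ← coordNorm_comp] at hlt ⊢
      simp only [Finsupp.mapDomain_support_of_injective hι.injective,
        card_image_of_injective _ hι.injective] at hlt
      set T := a.support.filter (fun k : ℕ+ => ∃ i, ι k ∈ E i) with hT
      rcases T.eq_empty_or_nonempty with hT0 | hT0
      · rw [sum_eq_zero]
        · nlinarith
        · intro i _
          have : a.filter (fun k : ℕ+ => ι k ∈ E i) = 0 := by
            rw [Finsupp.filter_eq_zero_iff]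
            intro k hk
            by_contra hx
            have : k ∈ T := mem_filter.2 ⟨Finsupp.mem_support_iff.2 hx, i, hk⟩
            rw [hT0] at this
            exact notMem_empty _ this
          rw [this, coordNorm_zero]
      set k0 := T.min' hT0 with hk0
      obtain ⟨-, i0, hi0⟩ := mem_filter.1 (T.min'_mem hT0)
      have hn : 2 * n ≤ F k0 := by
        have := hE.2.1 i0 _ hi0
        have := hιF k0
        rw [← hk0] at *
        omega
      set M := F k0 with hM
      let u : Fin n → (ℕ+ →₀ ℝ) := fun i => a.filter (fun k : ℕ+ => ι k ∈ E i ∧ (k : ℕ) < M)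
      let y : Fin n → (ℕ+ →₀ ℝ) := fun i => a.filter (fun k : ℕ+ => ι k ∈ E i ∧ M ≤ (k : ℕ))
      have huy : ∀ i, a.filter (fun k : ℕ+ => ι k ∈ E i) = u i + y i := by
        intro i
        ext k
        simp only [u, y, Finsupp.add_apply, Finsupp.filter_apply]
        by_cases h1 : ι k ∈ E i <;> by_cases h2 : (k : ℕ) < M <;> simp [h1, h2, not_lt.1, not_le.2]
      set S := T.filter (fun k : ℕ+ => (k : ℕ) < M) with hS
      have hu : ∑ i, coordNorm (e ∘ ι) (u i) ≤ C * coordNorm e (a.filter (fun k : ℕ+ => (k : ℕ) < M)) := by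
        calc ∑ i, coordNorm (e ∘ ι) (u i) ≤ ∑ i, ∑ k ∈ S, |u i k| := by
              refine sum_le_sum fun i _ => h.le_l1 ι _ _ fun k hk => ?_
              simp only [u, Finsupp.support_filter, mem_filter] at hk
              exact mem_filter.2 ⟨mem_filter.2 ⟨hk.1, i, hk.2.1⟩, hk.2.2⟩
          _ = ∑ k ∈ S, ∑ i, |u i k| := sum_comm
          _ ≤ ∑ k ∈ S, |a.filter (fun k : ℕ+ => (k : ℕ) < M) k| := by
              refine sum_le_sum fun k hk => ?_
              obtain ⟨hk1, hk2⟩ := mem_filter.1 hk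
              obtain ⟨-, i, hi⟩ := mem_filter.1 hk1
              rw [sum_eq_single i]
              · simp only [u, Finsupp.filter_apply, hi, hk2, and_self, if_true, le_refl]
              · intro j _ hji
                have : ι k ∉ E j := fun hj => hji (hE.unique hj hi)
                simp only [u, Finsupp.filter_apply, this, false_and, if_false, abs_zero]
              · simp
          _ ≤ _ := by
              refine hF k0 _ S fun k hk => ?_
              obtain ⟨hk1, hk2⟩ := mem_filter.1 hk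
              exact ⟨by exact_mod_cast T.min'_le k hk1, hk2⟩
      have hy : ∑ i, phi e (y i) (mm (y i)) ≤ 2 * coordNorm e (a.filter (fun k : ℕ+ => M ≤ (k : ℕ))) := by
        let z : Fin n ×ₗ Bool → (ℕ+ →₀ ℝ) := fun p =>
          if (ofLex p).2 then (y (ofLex p).1).filter (fun k : ℕ+ => mm (y (ofLex p).1) ≤ (k : ℕ))
          else (y (ofLex p).1).filter (fun k : ℕ+ => (k : ℕ) < mm (y (ofLex p).1))
        have hzs : ∀ p k, k ∈ (z p).support → ι k ∈ E (ofLex p).1 ∧ M ≤ (k : ℕ) := by
          intro p k hk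
          simp only [z] at hk
          split_ifs at hk <;>
          · simp only [y, Finsupp.support_filter, mem_filter] at hk
            exact hk.1.2
        have h1 := h.blocks univ z (a.filter (fun k : ℕ+ => M ≤ (k : ℕ))) (fun p _ k => ?_)
          (fun p _ k hk => ?_) (fun p _ q _ hpq k hk l hl => ?_)
        · refine le_trans (le_of_eq ?_) h1
          rw [← Equiv.sum_comp (toLex : Fin n × Bool ≃ Fin n ×ₗ Bool), Fintype.sum_prod_type]
          refine sum_congr rfl fun i _ => ?_
          rw [Fintype.sum_bool]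
          simp only [z, phi, ofLex_toLex, if_true, Bool.false_eq_true, if_false]
          exact add_comm _ _
        · simp only [z]
          split_ifs <;>
          · simp only [y, Finsupp.filter_apply]
            split_ifs <;> simp_all
        · have := (hzs p k hk).2
          have hcard : (univ : Finset (Fin n ×ₗ Bool)).card = 2 * n := by
            rw [card_univ, Fintype.card_lex, Fintype.card_prod, Fintype.card_fin,
              Fintype.card_bool, mul_comm]
          omega
        · rcases Prod.Lex.lt_iff.1 hpq with h2 | ⟨h2, h3⟩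
          · exact hι.lt_iff_lt.1 (hE.2.2 _ _ h2 _ (hzs p k hk).1 _ (hzs q l hl).1)
          · have hp : (ofLex p).2 = false := by
              revert h3; cases (ofLex p).2 <;> cases (ofLex q).2 <;> simp
            have hq : (ofLex q).2 = true := by
              revert h3; cases (ofLex p).2 <;> cases (ofLex q).2 <;> simp
            simp only [z, hp, hq, if_true, Bool.false_eq_true, if_false, Finsupp.support_filter,
              mem_filter] at hk hl
            rw [h2] at hk
            have : (k : ℕ) < l := hk.2.trans_le hl.2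
            exact_mod_cast this
      have hyi : ∀ i, coordNorm (e ∘ ι) (y i) ≤ (C + 1) * phi e (y i) (mm (y i)) := by
        intro i
        refine ih _ (lt_of_le_of_lt (card_le_card fun k hk => ?_) (hc ▸ hlt i)) _ rfl
        simp only [y, Finsupp.support_filter, mem_filter] at hk ⊢
        exact ⟨hk.1, hk.2.1⟩
      have hM2 := hmm a M
      have hA := coordNorm_nonneg e (a.filter (fun k : ℕ+ => (k : ℕ) < M))
      calc ∑ i, coordNorm (e ∘ ι) (a.filter (fun k : ℕ+ => ι k ∈ E i))
          ≤ ∑ i, (coordNorm (e ∘ ι) (u i) + (C + 1) * phi e (y i) (mm (y i))) := by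
            refine sum_le_sum fun i _ => ?_
            rw [huy i]
            exact (coordNorm_add_le _ _ _).trans (add_le_add le_rfl (hyi i))
        _ = ∑ i, coordNorm (e ∘ ι) (u i) + (C + 1) * ∑ i, phi e (y i) (mm (y i)) := by
            rw [sum_add_distrib, mul_sum]
        _ ≤ C * coordNorm e (a.filter (fun k : ℕ+ => (k : ℕ) < M)) +
              (C + 1) * (2 * coordNorm e (a.filter (fun k : ℕ+ => M ≤ (k : ℕ)))) :=
            add_le_add hu (mul_le_mul_of_nonneg_left hy (by linarith))
        _ ≤ 2 * ((C + 1) * phi e a M) := by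
            unfold phi
            nlinarith
        _ ≤ _ := by nlinarith
  refine ⟨(C + 1) * 2, fun a => (key a).trans ?_⟩
  rw [mul_assoc]
  refine mul_le_mul_of_nonneg_left ?_ (by linarith)
  unfold phi
  have h1 := h.filter_le a (fun k : ℕ+ => (k : ℕ) < mm a)
  have h2 := h.filter_le a (fun k => mm a ≤ (k : ℕ))
  linarith

end IsTsirelson

end Pool.Agent.H223Z.Tsi
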