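import Pool.Agent.H223Z.Tsi.Select

set_option autoImplicit false

namespace Pool.Agent.H223Z.Tsi

open Finset

variable {X : Type*} [NormedAddCommGroup X] [NormedSpace ℝ X]
variable {e : ℕ+ → X} {e' : ℕ+ → X →L[ℝ] ℝ}

/-- coordinatewise multiplication -/
noncomputable def mulc (c : ℕ+ → ℝ) (z : ℕ+ →₀ ℝ) : ℕ+ →₀ ℝ :=
  Finsupp.onFinset z.support (fun k => c k * z k) (fun k hk => by
    rw [Finsupp.mem_support_iff]
    intro h0
    exact hk (by simp [h0]))

lemma lc_mulc (e : ℕ+ → X) (c : ℕ+ → ℝ) (z : ℕ+ →₀ ℝ) :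
    Finsupp.linearCombination ℝ (fun k => c k • e k) z =
      Finsupp.linearCombination ℝ e (mulc c z) := by
  rw [Finsupp.linearCombination_apply, Finsupp.linearCombination_apply, Finsupp.sum,
    Finsupp.sum_of_support_subset (mulc c z) (s := z.support) Finsupp.support_onFinset_subset _
      (by simp)]
  refine sum_congr rfl fun k _ => ?_
  simp only [mulc, Finsupp.onFinset_apply, smul_smul, mul_comm]

lemma geom_le (S : Finset ℕ+) : ∑ k ∈ S, ((1 : ℝ) / 2) ^ k.natPred ≤ 2 := by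
  rw [← sum_image (s := S) (g := PNat.natPred) (f := fun n => ((1 : ℝ) / 2) ^ n)
    (fun j _ k _ hjk => PNat.natPred_injective hjk)]
  refine (summable_geometric_two.sum_le_tsum _ fun _ _ => by positivity).trans ?_
  rw [tsum_geometric_two]

theorem IsTsirelson.factorization [CompleteSpace X] (h : IsTsirelson e e') :
    FactorizationProperty e e' := by
  classical
  intro A hA
  set δ := ⨅ k, |e' k (A (e k))| with hδ
  have hδ0 : 0 < δ := hA
  have hδk : ∀ k, δ ≤ |e' k (A (e k))| := fun k =>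
    ciInf_le ⟨0, by rintro _ ⟨j, rfl⟩; exact abs_nonneg _⟩ k
  obtain ⟨ι, ι', F, hι, hι', hF, hιF, hιF', hd, hoff⟩ := h.select A (δ / 16) (by positivity)
  obtain ⟨C, hC⟩ := h.subseq_le ι hι F hF hιF
  obtain ⟨C', hC'⟩ := h.subseq_le ι' hι' F hF hιF'
  set lc := Finsupp.linearCombination ℝ e with hlc
  let b : ℕ+ → X := fun k => e (ι k) - e (ι' k)
  let β : ℕ+ → ℕ+ → ℝ := fun j k => e' (ι j) (A (b k))
  have hβ : ∀ k, δ / 2 ≤ |β k k| := by
    intro k
    have h1 := hδk (ι k)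
    have h2 := hd k
    have h3 : β k k = e' (ι k) (A (e (ι k))) - e' (ι k) (A (e (ι' k))) := by
      simp only [β, b, map_sub]
    have h4 := abs_sub_abs_le_abs_sub (e' (ι k) (A (e (ι k)))) (e' (ι k) (A (e (ι' k))))
    rw [h3]
    linarith
  let c : ℕ+ → ℝ := fun k => (β k k)⁻¹
  have hc : ∀ k, |c k| ≤ 2 / δ := by
    intro k
    simp only [c]
    rw [abs_inv, ← inv_div]
    exact inv_anti₀ (by positivity) (hβ k)
  have hcβ : ∀ k, c k * β k k = 1 := by
    intro k
    refine inv_mul_cancel₀ fun h0 => ?_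
    have := hβ k
    rw [h0, abs_zero] at this
    linarith
  let R0 : (ℕ+ →₀ ℝ) →ₗ[ℝ] X := Finsupp.linearCombination ℝ b
  have hR0 : ∀ a, ‖R0 a‖ ≤ (C + C') * ‖lc a‖ := by
    intro a
    have h1 : R0 a = Finsupp.linearCombination ℝ (e ∘ ι) a - Finsupp.linearCombination ℝ (e ∘ ι') a := by
      simp only [R0, b, Finsupp.linearCombination_apply, Finsupp.sum, smul_sub, sum_sub_distrib,
        Function.comp]
    rw [h1, add_mul]
    exact (norm_sub_le _ _).trans (add_le_add (hC a) (hC' a))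
  let R : X →L[ℝ] X := R0.extendOfNorm lc
  have hR : ∀ a, R (lc a) = R0 a := LinearMap.extendOfNorm_eq h.denseRange ⟨_, hR0⟩
  let Q0 : (ℕ+ →₀ ℝ) →ₗ[ℝ] X := (Finsupp.linearCombination ℝ (fun k => c k • e k)) ∘ₗ
    Finsupp.lcomapDomain ι hι.injective
  have hQ0e : ∀ x, Q0 x = lc (mulc c (Finsupp.lcomapDomain (R := ℝ) ι hι.injective x)) := fun x =>
    lc_mulc e c _
  have hmul : ∀ (x : ℕ+ →₀ ℝ) k,
      mulc c (Finsupp.lcomapDomain (R := ℝ) ι hι.injective x) k = c k * x (ι k) := fun x k => rfl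
  have hQ0 : ∀ x, ‖Q0 x‖ ≤ (2 / δ) * ‖lc x‖ := by
    intro x
    rw [hQ0e]
    have h1 := h.dom ι hι (mulc c (Finsupp.lcomapDomain (R := ℝ) ι hι.injective x)) ((2 / δ) • x)
      (fun k => by
        rw [hmul, Finsupp.smul_apply, smul_eq_mul, abs_mul, abs_mul,
          abs_of_pos (a := 2 / δ) (by positivity)]
        exact mul_le_mul_of_nonneg_right (hc k) (abs_nonneg _))
    rw [coordNorm_smul, abs_of_pos (a := 2 / δ) (by positivity)] at h1
    exact h1
  let Q : X →L[ℝ] X := Q0.extendOfNorm lc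
  have hQ : ∀ a, Q (lc a) = Q0 a := LinearMap.extendOfNorm_eq h.denseRange ⟨_, hQ0⟩
  have hQe : ∀ j y, e' j (Q y) = c j * e' (ι j) y := by
    intro j y
    refine h.denseRange.induction_on y (isClosed_eq (by fun_prop) (by fun_prop)) fun x => ?_
    rw [hQ, hQ0e, h.e'_lc, h.e'_lc, hmul]
  let B : X →L[ℝ] X := Q.comp (A.comp R)
  have hB : ∀ a : ℕ+ →₀ ℝ, ‖(1 - B) (lc a)‖ ≤ 1 / 2 * ‖lc a‖ := by
    intro a
    refine h.norm_le_of_l1 _ _ fun S => ?_
    have hN : 0 ≤ ‖lc a‖ := norm_nonneg _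
    have h1 : ∀ j, |e' j ((1 - B) (lc a))| ≤
        ∑ k ∈ a.support, ‖lc a‖ / 8 * ((1 / 2) ^ j.natPred * (1 / 2) ^ k.natPred) := by
      intro j
      have h2 : e' j ((1 - B) (lc a)) =
          ∑ k ∈ a.support, a k * ((if j = k then 1 else 0) - c j * β j k) := by
        simp only [B, ContinuousLinearMap.sub_apply, ContinuousLinearMap.one_apply,
          ContinuousLinearMap.comp_apply, map_sub]
        rw [hQe, hR]
        simp only [hlc, R0, Finsupp.linearCombination_apply, Finsupp.sum, map_sum, map_smul,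
          smul_eq_mul, h.biorth, mul_sub, sum_sub_distrib, mul_sum, β]
        congr 1
        refine sum_congr rfl fun k _ => by ring
      rw [h2]
      refine (abs_sum_le_sum_abs _ _).trans (sum_le_sum fun k _ => ?_)
      by_cases hjk : j = k
      · subst hjk
        rw [if_pos rfl, hcβ, sub_self, mul_zero, abs_zero]
        positivity
      · rw [if_neg hjk, zero_sub, abs_mul, abs_neg, abs_mul]
        have h3 : |a k| ≤ ‖lc a‖ := h.abs_le a k
        have h4 : |β j k| ≤ δ / 16 * ((1 / 2) ^ j.natPred * (1 / 2) ^ k.natPred) := hoff j k hjk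
        calc |a k| * (|c j| * |β j k|)
            ≤ ‖lc a‖ * (2 / δ * (δ / 16 * ((1 / 2) ^ j.natPred * (1 / 2) ^ k.natPred))) := by
              gcongr
              exact hc j
          _ = _ := by field_simp; ring
    calc ∑ j ∈ S, |e' j ((1 - B) (lc a))|
        ≤ ∑ j ∈ S, ∑ k ∈ a.support, ‖lc a‖ / 8 * ((1 / 2) ^ j.natPred * (1 / 2) ^ k.natPred) :=
          sum_le_sum fun j _ => h1 j
      _ = ‖lc a‖ / 8 * ((∑ j ∈ S, (1 / 2) ^ j.natPred) * ∑ k ∈ a.support, (1 / 2) ^ k.natPred) := by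
          rw [sum_mul_sum, mul_sum]
          refine sum_congr rfl fun j _ => by rw [mul_sum]
      _ ≤ ‖lc a‖ / 8 * (2 * 2) := by
          gcongr
          · exact geom_le S
          · exact geom_le _
      _ = _ := by ring
  have hBn : ‖1 - B‖ < 1 := by
    refine lt_of_le_of_lt (ContinuousLinearMap.opNorm_le_bound _ (M := 1 / 2) (by norm_num)
      fun y => ?_) (by norm_num)
    exact h.denseRange.induction_on y (isClosed_le (by fun_prop) (by fun_prop)) hB
  let u := Units.oneSub (1 - B) hBn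
  have hu : (u : X →L[ℝ] X) = B := by simp [u]
  refine ⟨R, (↑u⁻¹ : X →L[ℝ] X).comp Q, ?_⟩
  have h1 : (↑u⁻¹ : X →L[ℝ] X) * B = 1 := by rw [← hu]; exact u.inv_mul
  exact h1

end Pool.Agent.H223Z.Tsi
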