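import Pool.Agent.H223Z.Tsi.Growth

set_option autoImplicit false

namespace Pool.Agent.H223Z.Tsi

open Finset

variable {X : Type*} [NormedAddCommGroup X] [NormedSpace ℝ X]
variable {e : ℕ+ → X} {e' : ℕ+ → X →L[ℝ] ℝ}

lemma exists_seq_rec {α : Type*} [Inhabited α] (Q : ℕ → (ℕ → α) → α → Prop)
    (hQ : ∀ k f, ∃ a, Q k f a)
    (hc : ∀ k f g a, (∀ j < k, f j = g j) → Q k f a → Q k g a) : ∃ f : ℕ → α, ∀ k, Q k f (f k) := by
  classical
  choose F hF using hQ
  let g : ℕ → (ℕ → α) := fun k => Nat.rec (fun _ => default)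
    (fun k gk => Function.update gk k (F k gk)) k
  have hg : ∀ k, g (k + 1) = Function.update (g k) k (F k (g k)) := fun k => rfl
  have hgf : ∀ k, ∀ j < k, g k j = F j (g j) := by
    intro k
    induction k with
    | zero => intro j hj; omega
    | succ k ih =>
      intro j hj
      rw [hg]
      by_cases hjk : j = k
      · subst hjk; rw [Function.update_self]
      · rw [Function.update_of_ne hjk]; exact ih j (by omega)
  exact ⟨fun k => F k (g k), fun k => hc k (g k) _ _ (hgf k) (hF k (g k))⟩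

namespace IsTsirelson

variable (h : IsTsirelson e e')
include h

lemma denseRange : DenseRange (Finsupp.linearCombination ℝ e) := by
  have := h.dense
  rw [← Finsupp.range_linearCombination] at this
  exact this

lemma e'_lc (k : ℕ+) (x : ℕ+ →₀ ℝ) : e' k (Finsupp.linearCombination ℝ e x) = x k := by
  classical
  rw [Finsupp.linearCombination_apply, Finsupp.sum, map_sum]
  simp only [map_smul, h.biorth, smul_eq_mul, mul_ite, mul_one, mul_zero]
  rw [sum_ite_eq]
  split_ifs with hk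
  · rfl
  · exact (Finsupp.notMem_support_iff.1 hk).symm

lemma abs_e'_le (k : ℕ+) (y : X) : |e' k y| ≤ ‖y‖ := by
  refine h.denseRange.induction_on y (isClosed_le (by fun_prop) (by fun_prop)) fun x => ?_
  rw [h.e'_lc]
  exact h.abs_le x k

lemma l1_adm' (S : Finset ℕ+) (hS : ∀ k ∈ S, S.card ≤ (k : ℕ)) (y : X) :
    ∑ k ∈ S, |e' k y| ≤ 2 * ‖y‖ := by
  refine h.denseRange.induction_on y (isClosed_le (by fun_prop) (by fun_prop)) fun x => ?_
  simp only [h.e'_lc]
  exact h.l1_adm x S hS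

lemma proj_lc (S : Finset ℕ+) (x : ℕ+ →₀ ℝ) :
    ∑ k ∈ S, x k • e k = Finsupp.linearCombination ℝ e (x.filter (· ∈ S)) := by
  classical
  rw [Finsupp.linearCombination_apply, Finsupp.sum_of_support_subset _ (s := S) _ _ (by simp)]
  · refine sum_congr rfl fun k hk => ?_
    rw [Finsupp.filter_apply_pos (p := (· ∈ S)) _ hk]
  · intro k hk
    rw [Finsupp.support_filter, mem_filter] at hk
    exact hk.2

lemma proj_le (S : Finset ℕ+) (y : X) : ‖∑ k ∈ S, e' k y • e k‖ ≤ ‖y‖ := by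
  classical
  refine h.denseRange.induction_on y (isClosed_le (by fun_prop) (by fun_prop)) fun x => ?_
  simp only [h.e'_lc]
  rw [h.proj_lc]
  exact h.filter_le x _

lemma norm_le_of_l1 (y : X) (r : ℝ) (hr : ∀ S : Finset ℕ+, ∑ k ∈ S, |e' k y| ≤ r) : ‖y‖ ≤ r := by
  classical
  refine le_of_forall_pos_le_add fun ε hε => ?_
  obtain ⟨x, hx⟩ := h.denseRange.exists_dist_lt y (half_pos hε)
  rw [dist_eq_norm] at hx
  set z := Finsupp.linearCombination ℝ e x with hz
  have h1 : ∑ k ∈ x.support, e' k z • e k = z := by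
    simp only [hz, h.e'_lc]
    rw [Finsupp.linearCombination_apply, Finsupp.sum]
  have h2 : y = (y - z) + (∑ k ∈ x.support, e' k (z - y) • e k) + ∑ k ∈ x.support, e' k y • e k := by
    simp only [map_sub, sub_smul, sum_sub_distrib, h1]
    abel
  have h3 := h.proj_le x.support (z - y)
  rw [norm_sub_rev] at h3
  have h4 : ‖∑ k ∈ x.support, e' k y • e k‖ ≤ r := by
    refine (norm_sum_le _ _).trans (le_trans (sum_le_sum fun k _ => ?_) (hr x.support))
    rw [norm_smul, Real.norm_eq_abs]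
    have := h.norm_e_le k
    have := abs_nonneg (e' k y)
    nlinarith
  calc ‖y‖ = ‖(y - z) + (∑ k ∈ x.support, e' k (z - y) • e k) + ∑ k ∈ x.support, e' k y • e k‖ := by
        rw [← h2]
    _ ≤ ‖y - z‖ + ‖∑ k ∈ x.support, e' k (z - y) • e k‖ + ‖∑ k ∈ x.support, e' k y • e k‖ :=
        norm_add₃_le
    _ ≤ r + ε := by linarith

/-- one step of the selection -/
lemma step (A : X →L[ℝ] X) (k : ℕ) (φ : ℕ → ℕ+ → ℝ) (v : ℕ → X) (ε : ℝ) (hε : 0 < ε) (L : ℕ)
    (hL : ‖A‖ ≤ ε * L) (hφ : ∀ j i, |φ j i| ≤ ‖A‖) (hv : ∀ j, ‖v j‖ ≤ 2 * ‖A‖) (p : ℕ)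
    (hp : (2 * L + 1) ^ k * ((2 + 4 * k) * L) < p) :
    ∃ i i' : ℕ+, (p ≤ i ∧ (i : ℕ) < 2 * p) ∧ (p ≤ i' ∧ (i' : ℕ) < 2 * p) ∧
      |e' i (A (e i'))| ≤ ε ∧ ∀ j < k, |e' i (v j)| ≤ ε ∧ |φ j i - φ j i'| ≤ ε := by
  classical
  have hp0 : 0 < p := lt_of_le_of_lt (Nat.zero_le _) hp
  let I : Finset ℕ+ := Finset.Ico ⟨p, hp0⟩ ⟨2 * p, by omega⟩
  have hI : ∀ i ∈ I, p ≤ (i : ℕ) ∧ (i : ℕ) < 2 * p := by
    intro i hi
    rw [Finset.mem_Ico] at hi
    exact ⟨hi.1, hi.2⟩
  have hIc : I.card = p := by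
    rw [PNat.card_Ico]
    simp only [PNat.mk_coe]
    omega
  let c : ℕ+ → (Fin k → ℤ) := fun i j => ⌊φ j i / ε⌋
  let t : Finset (Fin k → ℤ) := Fintype.piFinset fun _ => Finset.Icc (-(L : ℤ)) L
  have htc : t.card = (2 * L + 1) ^ k := by
    rw [Fintype.card_piFinset_const, Int.card_Icc]
    congr 1
    omega
  have hct : ∀ i ∈ I, c i ∈ t := by
    intro i _
    rw [Fintype.mem_piFinset]
    intro j
    have h1 := _root_.abs_le.1 ((hφ j i).trans hL)
    rw [Finset.mem_Icc]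
    constructor
    · rw [Int.le_floor, le_div_iff₀ hε]
      push_cast
      linarith [h1.1]
    · refine Int.floor_le_iff.2 ?_
      rw [div_lt_iff₀ hε]
      push_cast
      nlinarith [h1.2]
  obtain ⟨y, -, hy⟩ := exists_lt_card_fiber_of_mul_lt_card_of_maps_to
    (n := (2 + 4 * k) * L) hct (by rw [htc, hIc]; exact hp)
  set G := I.filter (fun i => c i = y) with hG
  have hGne : G.Nonempty := card_pos.1 (lt_of_le_of_lt (Nat.zero_le _) hy)
  obtain ⟨i', hi'⟩ := hGne
  have hGadm : ∀ i ∈ G, G.card ≤ (i : ℕ) := fun i hi =>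
    ((card_filter_le _ _).trans hIc.le).trans (hI i (mem_filter.1 hi).1).1
  let u : ℕ+ → ℝ := fun i => |e' i (A (e i'))| + ∑ j ∈ range k, |e' i (v j)|
  have hA0 := norm_nonneg A
  have hu : ∑ i ∈ G, u i ≤ ∑ _i ∈ G, ε := by
    rw [sum_add_distrib, sum_comm, sum_const, nsmul_eq_mul]
    have h1 := h.l1_adm' G hGadm (A (e i'))
    have h2 : ‖A (e i')‖ ≤ ‖A‖ := by
      have := A.le_opNorm (e i')
      have := h.norm_e_le i'
      nlinarith
    have h3 : ∑ j ∈ range k, ∑ i ∈ G, |e' i (v j)| ≤ ∑ _j ∈ range k, 4 * ‖A‖ := by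
      refine sum_le_sum fun j _ => ?_
      have := h.l1_adm' G hGadm (v j)
      have := hv j
      linarith
    rw [sum_const, card_range, nsmul_eq_mul] at h3
    have h4 : (((2 + 4 * k) * L : ℕ) : ℝ) ≤ G.card := by exact_mod_cast hy.le
    push_cast at h4
    have hk0 : (0 : ℝ) ≤ k := Nat.cast_nonneg _
    have h5 : (2 + 4 * (k : ℝ)) * ‖A‖ ≤ (2 + 4 * k) * (ε * L) :=
      mul_le_mul_of_nonneg_left hL (by linarith)
    nlinarith
  obtain ⟨i, hi, hui⟩ := exists_le_of_sum_le ⟨i', hi'⟩ hu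
  have hs0 : 0 ≤ ∑ j ∈ range k, |e' i (v j)| := sum_nonneg fun _ _ => abs_nonneg _
  refine ⟨i, i', hI i (mem_filter.1 hi).1, hI i' (mem_filter.1 hi').1, ?_, fun j hj => ⟨?_, ?_⟩⟩
  · simp only [u] at hui
    linarith
  · have := single_le_sum (f := fun j => |e' i (v j)|) (fun _ _ => abs_nonneg _) (mem_range.2 hj)
    simp only [u] at hui
    linarith [abs_nonneg (e' i (A (e i')))]
  · have h1 : c i ⟨j, hj⟩ = c i' ⟨j, hj⟩ := by
      rw [(mem_filter.1 hi).2, (mem_filter.1 hi').2]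
    have h2 := Int.abs_sub_lt_one_of_floor_eq_floor h1
    rw [← sub_div, abs_div, abs_of_pos hε, div_lt_one hε] at h2
    exact h2.le

/-- the selection of the two subsequences -/
lemma select (A : X →L[ℝ] X) (η : ℝ) (hη : 0 < η) :
    ∃ (ι ι' : ℕ+ → ℕ+) (F : ℕ → ℕ), StrictMono ι ∧ StrictMono ι' ∧ Good e F ∧
      (∀ k : ℕ+, 2 * (ι k : ℕ) ≤ F k) ∧ (∀ k : ℕ+, 2 * (ι' k : ℕ) ≤ F k) ∧
      (∀ k, |e' (ι k) (A (e (ι' k)))| ≤ η) ∧
      ∀ j k, j ≠ k → |e' (ι j) (A (e (ι k) - e (ι' k)))| ≤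
        η * ((1 / 2) ^ j.natPred * (1 / 2) ^ k.natPred) := by
  obtain ⟨L0, hL0⟩ := exists_nat_ge (‖A‖ / η)
  rw [div_le_iff₀ hη] at hL0
  let W : ℕ → ℕ := fun k => (2 + 4 * k) * (L0 * 4 ^ k) + 2 * (L0 * 4 ^ k) + 2
  let p : ℕ → ℕ := fun k => W k ^ (k + 1)
  have hW : ∀ k, W k ≤ W (k + 1) := by
    intro k
    simp only [W]
    have : 4 ^ k ≤ 4 ^ (k + 1) := Nat.pow_le_pow_right (by norm_num) (by omega)
    gcongr
    omega
  have hp : ∀ k, 2 * p k ≤ p (k + 1) := by
    intro k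
    simp only [p]
    rw [pow_succ (W (k + 1)), mul_comm]
    exact Nat.mul_le_mul (Nat.pow_le_pow_left (hW k) _) (by simp only [W]; omega)
  have hpm : Monotone p := monotone_nat_of_le_succ fun k => by have := hp k; omega
  have hA0 := norm_nonneg A
  obtain ⟨f, hf⟩ := exists_seq_rec (α := ℕ+ × ℕ+)
    (fun k f a => (p k ≤ a.1 ∧ (a.1 : ℕ) < 2 * p k) ∧ (p k ≤ a.2 ∧ (a.2 : ℕ) < 2 * p k) ∧
      |e' a.1 (A (e a.2))| ≤ η / 4 ^ k ∧ ∀ j < k, |e' a.1 (A (e (f j).1 - e (f j).2))| ≤ η / 4 ^ k ∧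
        |e' (f j).1 (A (e a.1)) - e' (f j).1 (A (e a.2))| ≤ η / 4 ^ k)
    (fun k f => by
      obtain ⟨i, i', h1⟩ := h.step A k (fun j i => e' (f j).1 (A (e i)))
        (fun j => A (e (f j).1 - e (f j).2)) (η / 4 ^ k) (by positivity) (L0 * 4 ^ k)
        (by
          push_cast
          have : η / 4 ^ k * (L0 * 4 ^ k) = L0 * η := by field_simp
          rw [this]; exact hL0)
        (fun j i => by
          refine (h.abs_e'_le _ _).trans ?_
          have := A.le_opNorm (e i)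
          have := h.norm_e_le i
          nlinarith)
        (fun j => by
          have h1 := A.le_opNorm (e (f j).1 - e (f j).2)
          have h2 := norm_sub_le (e (f j).1) (e (f j).2)
          have := h.norm_e_le (f j).1
          have := h.norm_e_le (f j).2
          nlinarith)
        (p k)
        (by
          simp only [p]
          rw [pow_succ]
          refine Nat.mul_lt_mul_of_le_of_lt (Nat.pow_le_pow_left ?_ _) ?_ ?_
          · simp only [W]; omega
          · simp only [W]; omega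
          · apply pow_pos; simp only [W]; omega)
      exact ⟨(i, i'), h1⟩)
    (fun k f g a hfg hQ => by
      refine ⟨hQ.1, hQ.2.1, hQ.2.2.1, fun j hj => ?_⟩
      rw [← hfg j hj]
      exact hQ.2.2.2 j hj)
  have hlt : ∀ j k : ℕ+, j < k → 2 * p j.natPred ≤ p k.natPred := by
    intro j k hjk
    have : j.natPred < k.natPred := PNat.natPred_lt_natPred.2 hjk
    exact (hp _).trans (hpm this)
  have hpk : ∀ k : ℕ+, p k.natPred ≤ p k := fun k => hpm (by
    have := PNat.natPred_add_one k; omega)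
  have hpow : ∀ j k : ℕ, j ≤ k → η / 4 ^ k ≤ η * ((1 / 2) ^ j * (1 / 2) ^ k) := by
    intro j k hjk
    have h1 : ((1 : ℝ) / 2) ^ k ≤ (1 / 2) ^ j := pow_le_pow_of_le_one (by norm_num) (by norm_num) hjk
    have h2 : η / 4 ^ k = η * ((1 / 2) ^ k * (1 / 2) ^ k) := by
      rw [← mul_pow, div_eq_mul_inv, ← inv_pow]; norm_num
    rw [h2]
    gcongr
  refine ⟨fun k => (f k.natPred).1, fun k => (f k.natPred).2, fun m => 4 * p m, ?_, ?_, ?_, ?_, ?_,
    ?_, ?_⟩
  · intro j k hjk
    have h1 := (hf j.natPred).1.2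
    have h2 := (hf k.natPred).1.1
    have h3 := hlt j k hjk
    have : ((f j.natPred).1 : ℕ) < (f k.natPred).1 := by omega
    exact_mod_cast this
  · intro j k hjk
    have h1 := (hf j.natPred).2.1.2
    have h2 := (hf k.natPred).2.1.1
    have h3 := hlt j k hjk
    have : ((f j.natPred).2 : ℕ) < (f k.natPred).2 := by omega
    exact_mod_cast this
  · have hL : Good e (fun m => L0 * 4 ^ m) :=
      h.good_mul (h.good_const L0) (h.good_pow (h.good_const 4) good_id)
    refine h.good_mul (h.good_const 4) (h.good_pow ?_ (h.good_add good_id (h.good_const 1)))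
    exact h.good_add (h.good_add (h.good_mul (h.good_add (h.good_const 2)
      (h.good_mul (h.good_const 4) good_id)) hL) (h.good_mul (h.good_const 2) hL)) (h.good_const 2)
  · intro k
    have h1 := (hf k.natPred).1.2
    have := hpk k
    simp only
    omega
  · intro k
    have h1 := (hf k.natPred).2.1.2
    have := hpk k
    simp only
    omega
  · intro k
    refine (hf k.natPred).2.2.1.trans ?_
    exact div_le_self hη.le (one_le_pow₀ (by norm_num))
  · intro j k hjk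
    rcases lt_or_gt_of_ne hjk with h1 | h1
    · have h2 : j.natPred < k.natPred := PNat.natPred_lt_natPred.2 h1
      have h3 := ((hf k.natPred).2.2.2 _ h2).2
      simp only [map_sub]
      exact h3.trans (hpow _ _ h2.le)
    · have h2 : k.natPred < j.natPred := PNat.natPred_lt_natPred.2 h1
      have h3 := ((hf j.natPred).2.2.2 _ h2).1
      rw [mul_comm ((1 / 2 : ℝ) ^ j.natPred)]
      exact h3.trans (hpow _ _ h2.le)

end IsTsirelson

end Pool.Agent.H223Z.Tsi
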